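import Pool.Agent.V5helper46.GP.Stm0

set_option autoImplicit false

/-!
Jobs TU, NU, CN of project GP: elementary counting.
-/

namespace Pool.Agent.V5helper19.GP

open Pool.Agent.V5helper46.GP Finset

/-! ### TU -/

theorem t_TU : S_TU := by
  classical
  intro K
  induction K with
  | zero =>
    intro A M Bad hM h0 _
    have : {n : Fin 0 → ℕ | (∀ i, n i ∈ A) ∧ Bad 0 n} = ∅ := by
      ext n
      simp [h0 n]
    rw [this]
    simp
  | succ K ih =>
    intro A M Bad hM h0 h
    have ih' := ih A M Bad hM h0 (fun j hj => h j (by omega))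
    set T : Finset (Fin K → ℕ) := (Fintype.piFinset fun _ : Fin K => A).filter (Bad K) with hT
    set T' : Finset (Fin (K + 1) → ℕ) := (Fintype.piFinset fun _ : Fin (K + 1) => A).filter (Bad (K + 1)) with hT'
    have e1 : {n : Fin K → ℕ | (∀ i, n i ∈ A) ∧ Bad K n} = (T : Set (Fin K → ℕ)) := by
      ext n; simp [hT]
    have e2 : {n : Fin (K + 1) → ℕ | (∀ i, n i ∈ A) ∧ Bad (K + 1) n} = (T' : Set (Fin (K + 1) → ℕ)) := by
      ext n; simp [hT']
    rw [e1, Set.ncard_coe_finset] at ih'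
    rw [e2, Set.ncard_coe_finset]
    set U : Finset (Fin K → ℕ) := (Fintype.piFinset fun _ : Fin K => A).filter (fun m => ¬ Bad K m) with hU
    have hsub : T' ⊆ ((T ×ˢ A).image fun q : (Fin K → ℕ) × ℕ => (Fin.snoc q.1 q.2 : Fin (K + 1) → ℕ)) ∪
        U.biUnion fun m => (A.filter fun n => Bad (K + 1) (Fin.snoc m n)).image
          fun n => (Fin.snoc m n : Fin (K + 1) → ℕ) := by
      intro n hn
      rw [hT', mem_filter, Fintype.mem_piFinset] at hn
      have hs : (Fin.snoc (Fin.init n) (n (Fin.last K)) : Fin (K + 1) → ℕ) = n := Fin.snoc_init_self n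
      have hA : ∀ i, (Fin.init n : Fin K → ℕ) i ∈ A := fun i => hn.1 i.castSucc
      rw [mem_union]
      by_cases hb : Bad K (Fin.init n)
      · left
        rw [mem_image]
        refine ⟨(Fin.init n, n (Fin.last K)), ?_, hs⟩
        rw [mem_product]
        refine ⟨?_, hn.1 _⟩
        rw [hT, mem_filter, Fintype.mem_piFinset]
        exact ⟨hA, hb⟩
      · right
        rw [mem_biUnion]
        refine ⟨Fin.init n, ?_, ?_⟩
        · rw [hU, mem_filter, Fintype.mem_piFinset]
          exact ⟨hA, hb⟩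
        · rw [mem_image]
          refine ⟨n (Fin.last K), ?_, hs⟩
          rw [mem_filter, hs]
          exact ⟨hn.1 _, hn.2⟩
    have hU1 : U.card ≤ A.card ^ K := by
      refine (card_filter_le _ _).trans ?_
      rw [Fintype.card_piFinset_const]
    have hc1 : (T'.card : ℝ) ≤ (T.card : ℝ) * A.card + ∑ m ∈ U, (((A.filter fun n => Bad (K + 1) (Fin.snoc m n)).card : ℕ) : ℝ) := by
      have h1 := (card_le_card hsub).trans (card_union_le _ _)
      have h2 : ((T ×ˢ A).image fun q : (Fin K → ℕ) × ℕ => (Fin.snoc q.1 q.2 : Fin (K + 1) → ℕ)).card ≤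
          T.card * A.card := card_image_le.trans (by rw [card_product])
      have h3 : (U.biUnion fun m => (A.filter fun n => Bad (K + 1) (Fin.snoc m n)).image
          fun n => (Fin.snoc m n : Fin (K + 1) → ℕ)).card ≤ ∑ m ∈ U, (A.filter fun n => Bad (K + 1) (Fin.snoc m n)).card :=
        card_biUnion_le.trans (sum_le_sum fun m _ => card_image_le)
      have h4 : T'.card ≤ T.card * A.card + ∑ m ∈ U, (A.filter fun n => Bad (K + 1) (Fin.snoc m n)).card := by omega
      exact_mod_cast h4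
    have hc2 : ∑ m ∈ U, (((A.filter fun n => Bad (K + 1) (Fin.snoc m n)).card : ℕ) : ℝ) ≤ (A.card : ℝ) ^ K * M := by
      calc ∑ m ∈ U, (((A.filter fun n => Bad (K + 1) (Fin.snoc m n)).card : ℕ) : ℝ) ≤ ∑ _m ∈ U, M := by
            refine sum_le_sum fun m hm => ?_
            rw [hU, mem_filter, Fintype.mem_piFinset] at hm
            have h5 := h K (by omega) m hm.1 hm.2
            have h6 : {n : ℕ | n ∈ A ∧ Bad (K + 1) (Fin.snoc m n)} =
                ((A.filter fun n => Bad (K + 1) (Fin.snoc m n) : Finset ℕ) : Set ℕ) := by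
              ext n; simp
            rwa [h6, Set.ncard_coe_finset] at h5
        _ = U.card * M := by rw [sum_const, nsmul_eq_mul]
        _ ≤ (A.card : ℝ) ^ K * M := by
            apply mul_le_mul_of_nonneg_right _ hM
            exact_mod_cast hU1
    have hc3 : (T.card : ℝ) * A.card ≤ K * (A.card : ℝ) ^ K * M := by
      rcases Nat.eq_zero_or_pos K with hK | hK
      · subst hK
        have : (T.card : ℝ) ≤ 0 := by simpa using ih'
        have h7 : (0:ℝ) ≤ A.card := Nat.cast_nonneg _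
        have : (T.card : ℝ) * A.card ≤ 0 := mul_nonpos_of_nonpos_of_nonneg this h7
        simpa using this
      · calc (T.card : ℝ) * A.card ≤ (K * (A.card : ℝ) ^ (K - 1) * M) * A.card :=
              mul_le_mul_of_nonneg_right ih' (Nat.cast_nonneg _)
          _ = K * ((A.card : ℝ) ^ (K - 1) * A.card) * M := by ring
          _ = K * (A.card : ℝ) ^ K * M := by rw [← pow_succ, Nat.sub_add_cancel hK]
    rw [Nat.add_sub_cancel]
    push_cast
    nlinarith [hc1, hc2, hc3]

/-! ### NU -/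

lemma snum_ext {p : Finset ℕ} {a b : ℕ} (ha : SNum p a) (hb : SNum p b)
    (h : ∀ l ∈ p, a.factorization l = b.factorization l) : a = b := by
  refine Nat.eq_of_factorization_eq ha.1 hb.1 fun l => ?_
  by_cases hl : l ∈ p
  · exact h l hl
  · have hz : ∀ c : ℕ, SNum p c → c.factorization l = 0 := by
      intro c hc
      by_cases hp : l.Prime
      · apply Nat.factorization_eq_zero_of_not_dvd
        intro hd
        exact hl (hc.2 l hp hd)
      · exact Nat.factorization_eq_zero_of_not_prime c hp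
    rw [hz a ha, hz b hb]

lemma exp_le {n : ℕ} (hn : n ≠ 0) (l : ℕ) : 2 ^ (n.factorization l) ≤ n := by
  by_cases hp : l.Prime
  · calc 2 ^ (n.factorization l) ≤ l ^ (n.factorization l) := Nat.pow_le_pow_left hp.two_le _
      _ ≤ n := Nat.le_of_dvd (Nat.pos_of_ne_zero hn) (Nat.ordProj_dvd n l)
  · rw [Nat.factorization_eq_zero_of_not_prime n hp, pow_zero]
    exact Nat.one_le_iff_ne_zero.2 hn

theorem t_NU : S_NU := by
  classical
  intro p
  refine ⟨2 ^ p.card, fun X hX => ?_⟩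
  have hX0 : (0:ℝ) ≤ X := by linarith
  have hfin : {n : ℕ | (n : ℝ) ≤ X ∧ SNum p n}.Finite := by
    refine (Set.finite_Iic ⌊X⌋₊).subset fun n hn => ?_
    exact Nat.le_floor hn.1
  refine ⟨hfin, ?_⟩
  set k := Nat.log 2 ⌊X⌋₊ with hk
  have hf0 : ⌊X⌋₊ ≠ 0 := by
    have : 16 ≤ ⌊X⌋₊ := Nat.le_floor (by exact_mod_cast hX)
    omega
  have hk1 : ((2:ℝ)) ^ k ≤ X := by
    have h1 : 2 ^ k ≤ ⌊X⌋₊ := Nat.pow_log_le_self 2 hf0
    calc ((2:ℝ)) ^ k = ((2 ^ k : ℕ) : ℝ) := by push_cast; rfl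
      _ ≤ (⌊X⌋₊ : ℝ) := by exact_mod_cast h1
      _ ≤ X := Nat.floor_le hX0
  have hcard : {n : ℕ | (n : ℝ) ≤ X ∧ SNum p n}.ncard ≤ (k + 1) ^ p.card := by
    have h2 : ((Fintype.piFinset fun _ : p => range (k + 1) : Finset (p → ℕ)) : Set (p → ℕ)).ncard = (k + 1) ^ p.card := by
      rw [Set.ncard_coe_finset, Fintype.card_piFinset, prod_const, card_univ, card_range, Fintype.card_coe]
    rw [← h2]
    refine Set.ncard_le_ncard_of_injOn (fun n => fun l : p => n.factorization l) ?_ ?_ (Finset.finite_toSet _)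
    · intro n hn
      rw [mem_coe, Fintype.mem_piFinset]
      intro l
      rw [mem_range, Nat.lt_succ_iff, hk]
      apply Nat.le_log_of_pow_le (by norm_num)
      exact (exp_le hn.2.1 _).trans (Nat.le_floor hn.1)
    · intro a ha b hb hab
      apply snum_ext ha.2 hb.2
      intro l hl
      exact congrFun hab ⟨l, hl⟩
  have hlog : (k : ℝ) + 1 ≤ 2 * Real.log X := by
    have h3 : (k : ℝ) * Real.log 2 ≤ Real.log X := by
      rw [← Real.log_pow]
      exact Real.log_le_log (by positivity) hk1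
    have h4 : 4 * Real.log 2 ≤ Real.log X := by
      have : Real.log 16 = 4 * Real.log 2 := by
        rw [show (16:ℝ) = 2 ^ 4 by norm_num, Real.log_pow]
        norm_num
      rw [← this]
      exact Real.log_le_log (by norm_num) hX
    have h5 := Real.log_two_gt_d9
    nlinarith
  calc ({n : ℕ | (n : ℝ) ≤ X ∧ SNum p n}.ncard : ℝ) ≤ (((k + 1) ^ p.card : ℕ) : ℝ) := by exact_mod_cast hcard
    _ = ((k : ℝ) + 1) ^ p.card := by push_cast; rfl
    _ ≤ (2 * Real.log X) ^ p.card := pow_le_pow_left₀ (by positivity) hlog _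
    _ = 2 ^ p.card * Real.log X ^ p.card := mul_pow _ _ _

/-! ### CN -/

/-- the product with exponents `L q_l` -/
def NN (p' : Finset ℕ) (L : ℕ) (q : ℕ → ℕ) : ℕ := ∏ l ∈ p', l ^ (L * q l)

lemma snum_prod {p : Finset ℕ} {n : ℕ} (hn : SNum p n) :
    n = ∏ l ∈ p.filter Nat.Prime, l ^ n.factorization l := by
  conv_lhs => rw [← Nat.prod_factorization_pow_eq_self hn.1]
  rw [Finsupp.prod]
  apply prod_subset
  · intro l hl
    rw [mem_filter]
    rw [Nat.support_factorization, Nat.mem_primeFactors] at hl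
    exact ⟨hn.2 l hl.1 hl.2.1, hl.1⟩
  · intro l _ hl
    rw [Finsupp.notMem_support_iff] at hl
    rw [hl, pow_zero]

lemma two_le_pow {P L : ℕ} (hL : 1 ≤ L) : P ^ L + 2 ≤ (P + 2) ^ L := by
  induction L with
  | zero => omega
  | succ L ih =>
    rcases Nat.eq_zero_or_pos L with h | h
    · subst h; simp
    · have := ih h
      calc P ^ (L + 1) + 2 = P ^ L * P + 2 := by rw [pow_succ]
        _ ≤ (P ^ L + 2) * (P + 2) := by nlinarith [Nat.zero_le (P ^ L), Nat.zero_le P]
        _ ≤ (P + 2) ^ L * (P + 2) := Nat.mul_le_mul_right _ this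
        _ = (P + 2) ^ (L + 1) := by rw [pow_succ]

/-- one range -/
lemma range_count (p : Finset ℕ) (E m D : ℕ) (hD : D = (∏ l ∈ p.filter Nat.Prime, l + 2) * E + 1)
    (B : Set ℕ)
    (hB : ∀ N H : ℕ, (H + 2) ^ E ≤ N → ∃ S : Finset ℕ, S.card ≤ m ∧ ∀ β : ℕ, 1 ≤ β → β ≤ H → β ∣ N → N / β ∈ B → β ∈ S)
    (j : ℕ) (hj : D ≤ 2 ^ j) :
    ∃ F : Finset ℕ, F.card ≤ (4 * D + 1) ^ p.card * m ∧
      ∀ n : ℕ, SNum p n → n ∈ B → 2 ^ (2 ^ j) ≤ n → n < 2 ^ (2 ^ (j + 1)) → n ∈ F := by
  classical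
  set p' := p.filter Nat.Prime with hp'
  set P := ∏ l ∈ p', l with hP
  have hDpos : 0 < D := by omega
  set L := 2 ^ j / D with hL
  have hL1 : 1 ≤ L := (Nat.one_le_div_iff hDpos).2 hj
  have hLD : D * L ≤ 2 ^ j := Nat.mul_div_le _ _
  have hLD2 : 2 ^ (j + 1) < 4 * D * L := by
    have h1 : 2 ^ j < D * (L + 1) := by
      rw [hL]
      exact Nat.lt_mul_div_succ _ hDpos
    have h2 : D * (L + 1) ≤ 2 * (D * L) := by nlinarith
    rw [pow_succ]
    nlinarith
  have hch : ∀ N : ℕ, ∃ S : Finset ℕ, S.card ≤ m ∧ ((P ^ L + 2) ^ E ≤ N →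
      ∀ β : ℕ, 1 ≤ β → β ≤ P ^ L → β ∣ N → N / β ∈ B → β ∈ S) := by
    intro N
    by_cases h : (P ^ L + 2) ^ E ≤ N
    · obtain ⟨S, h1, h2⟩ := hB N (P ^ L) h
      exact ⟨S, h1, fun _ => h2⟩
    · exact ⟨∅, by simp, fun h3 => absurd h3 h⟩
  choose S hS1 hS2 using hch
  let Q : Finset (p → ℕ) := Fintype.piFinset fun _ : p => range (4 * D + 1)
  let ext : (p → ℕ) → ℕ → ℕ := fun q l => if h : l ∈ p then q ⟨l, h⟩ else 0
  refine ⟨Q.biUnion fun q => (S (NN p' L (ext q))).image fun β => NN p' L (ext q) / β, ?_, ?_⟩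
  · calc (Q.biUnion fun q => (S (NN p' L (ext q))).image fun β => NN p' L (ext q) / β).card
        ≤ ∑ q ∈ Q, ((S (NN p' L (ext q))).image fun β => NN p' L (ext q) / β).card := card_biUnion_le
      _ ≤ ∑ _q ∈ Q, m := sum_le_sum fun q _ => card_image_le.trans (hS1 _)
      _ = (4 * D + 1) ^ p.card * m := by
          rw [sum_const, smul_eq_mul]
          simp only [Q]
          rw [Fintype.card_piFinset, prod_const, card_univ, card_range, Fintype.card_coe]
  · intro n hn hnB hn1 hn2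
    -- the exponents
    set e : ℕ → ℕ := fun l => n.factorization l with he
    have he2 : ∀ l, e l < 4 * D * L := by
      intro l
      have h1 : 2 ^ (e l) < 2 ^ (2 ^ (j + 1)) := lt_of_le_of_lt (exp_le hn.1 l) hn2
      have h2 : e l < 2 ^ (j + 1) := (Nat.pow_lt_pow_iff_right (by norm_num)).1 h1
      omega
    let q : p → ℕ := fun l => (e l + L - 1) / L
    have hext : ∀ l ∈ p', ext q l = (e l + L - 1) / L := by
      intro l hl
      have : l ∈ p := (mem_filter.1 hl).1
      simp only [ext, q, this, dif_pos]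
    have hqe : ∀ l, e l ≤ L * ((e l + L - 1) / L) ∧ L * ((e l + L - 1) / L) ≤ e l + L := by
      intro l
      constructor
      · have h3 : e l + L - 1 < L * ((e l + L - 1) / L + 1) := Nat.lt_mul_div_succ _ (by omega)
        have h4 : L * ((e l + L - 1) / L + 1) = L * ((e l + L - 1) / L) + L := by ring
        omega
      · have h3 : L * ((e l + L - 1) / L) ≤ e l + L - 1 := Nat.mul_div_le _ _
        omega
    set β := ∏ l ∈ p', l ^ (L * ((e l + L - 1) / L) - e l) with hβ
    have hprime : ∀ l ∈ p', l.Prime := fun l hl => (mem_filter.1 hl).2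
    have hβ1 : 1 ≤ β := by
      apply Nat.one_le_iff_ne_zero.2
      rw [hβ]
      exact prod_ne_zero_iff.2 fun l hl => pow_ne_zero _ (hprime l hl).ne_zero
    have hβ2 : β ≤ P ^ L := by
      rw [hβ, hP, ← prod_pow]
      refine prod_le_prod' fun l hl => ?_
      apply Nat.pow_le_pow_right (hprime l hl).pos
      have := (hqe l).2
      omega
    have hN : NN p' L (ext q) = n * β := by
      unfold NN
      have h5 : n = ∏ l ∈ p', l ^ e l := snum_prod hn
      rw [hβ]
      conv_rhs => rw [h5]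
      rw [← prod_mul_distrib]
      refine prod_congr rfl fun l hl => ?_
      rw [← pow_add, hext l hl]
      congr 1
      have := (hqe l).1
      omega
    have hq : q ∈ Q := by
      simp only [Q]
      rw [Fintype.mem_piFinset]
      intro l
      rw [mem_range, Nat.lt_succ_iff]
      simp only [q]
      have h6 : e (l : ℕ) + L - 1 < 4 * D * L + L := by
        have := he2 (l : ℕ)
        omega
      have h7 : (e (l : ℕ) + L - 1) / L < 4 * D + 1 := by
        rw [Nat.div_lt_iff_lt_mul (by omega)]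
        calc e (l : ℕ) + L - 1 < 4 * D * L + L := h6
          _ = (4 * D + 1) * L := by ring
      omega
    have hbig : (P ^ L + 2) ^ E ≤ NN p' L (ext q) := by
      rw [hN]
      calc (P ^ L + 2) ^ E ≤ ((P + 2) ^ L) ^ E := Nat.pow_le_pow_left (two_le_pow hL1) _
        _ = (P + 2) ^ (L * E) := by rw [← pow_mul]
        _ ≤ (2 ^ (P + 2)) ^ (L * E) := Nat.pow_le_pow_left Nat.lt_two_pow_self.le _
        _ = 2 ^ ((P + 2) * (L * E)) := by rw [← pow_mul]
        _ ≤ 2 ^ (2 ^ j) := by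
            apply Nat.pow_le_pow_right (by norm_num)
            calc (P + 2) * (L * E) = ((P + 2) * E) * L := by ring
              _ ≤ D * L := Nat.mul_le_mul_right _ (by omega)
              _ ≤ 2 ^ j := hLD
        _ ≤ n := hn1
        _ ≤ n * β := Nat.le_mul_of_pos_right _ hβ1
    have hdiv : NN p' L (ext q) / β = n := by
      rw [hN]
      exact Nat.mul_div_cancel _ hβ1
    rw [mem_biUnion]
    refine ⟨q, hq, ?_⟩
    rw [mem_image]
    refine ⟨β, hS2 _ hbig β hβ1 hβ2 ?_ ?_, hdiv⟩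
    · rw [hN]; exact Dvd.intro_left n rfl
    · rw [hdiv]; exact hnB

theorem t_CN : S_CN := by
  classical
  intro p E m
  set D := (∏ l ∈ p.filter Nat.Prime, l + 2) * E + 1 with hD
  refine ⟨2 ^ (2 * D) + 4 * ((4 * D + 1) ^ p.card * m : ℕ), fun B hB X hX => ?_⟩
  have hX0 : (0:ℝ) ≤ X := by linarith
  have hf0 : 16 ≤ ⌊X⌋₊ := Nat.le_floor (by exact_mod_cast hX)
  set k := Nat.log 2 ⌊X⌋₊ with hk
  set i := Nat.log 2 k with hi
  have hch : ∀ j : ℕ, ∃ F : Finset ℕ, F.card ≤ (4 * D + 1) ^ p.card * m ∧ (D ≤ 2 ^ j →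
      ∀ n : ℕ, SNum p n → n ∈ B → 2 ^ (2 ^ j) ≤ n → n < 2 ^ (2 ^ (j + 1)) → n ∈ F) := by
    intro j
    by_cases h : D ≤ 2 ^ j
    · obtain ⟨F, h1, h2⟩ := range_count p E m D hD B hB j h
      exact ⟨F, h1, fun _ => h2⟩
    · exact ⟨∅, by simp, fun h3 => absurd h3 h⟩
  choose F hF1 hF2 using hch
  have hsub : {n : ℕ | (n : ℝ) ≤ X ∧ SNum p n ∧ n ∈ B} ⊆
      ((range (2 ^ (2 * D)) ∪ (range (i + 1)).biUnion F : Finset ℕ) : Set ℕ) := by
    intro n hn
    obtain ⟨h1, h2, h3⟩ := hn
    rw [coe_union, Set.mem_union]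
    by_cases hs : n < 2 ^ (2 * D)
    · left
      exact mem_coe.2 (mem_range.2 hs)
    · right
      push Not at hs
      have hn0 : n ≠ 0 := h2.1
      set k' := Nat.log 2 n with hk'
      have hk1 : 2 * D ≤ k' := Nat.le_log_of_pow_le (by norm_num) hs
      have hk0 : k' ≠ 0 := by omega
      set j := Nat.log 2 k' with hj
      have hj1 : 2 ^ j ≤ k' := Nat.pow_log_le_self 2 hk0
      have hj2 : k' < 2 ^ (j + 1) := Nat.lt_pow_succ_log_self (by norm_num) k'
      have hji : j ≤ i := by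
        apply Nat.log_mono_right
        apply Nat.log_mono_right
        exact Nat.le_floor h1
      rw [mem_coe, mem_biUnion]
      refine ⟨j, mem_range.2 (by omega), hF2 j ?_ n h2 h3 ?_ ?_⟩
      · rw [pow_succ] at hj2
        omega
      · calc 2 ^ (2 ^ j) ≤ 2 ^ k' := Nat.pow_le_pow_right (by norm_num) hj1
          _ ≤ n := Nat.pow_log_le_self 2 hn0
      · calc n < 2 ^ (k' + 1) := Nat.lt_pow_succ_log_self (by norm_num) n
          _ ≤ 2 ^ (2 ^ (j + 1)) := Nat.pow_le_pow_right (by norm_num) hj2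
  have hcard : {n : ℕ | (n : ℝ) ≤ X ∧ SNum p n ∧ n ∈ B}.ncard ≤ 2 ^ (2 * D) + (i + 1) * ((4 * D + 1) ^ p.card * m) := by
    refine (Set.ncard_le_ncard hsub (Finset.finite_toSet _)).trans ?_
    rw [Set.ncard_coe_finset]
    refine (card_union_le _ _).trans ?_
    rw [card_range]
    apply Nat.add_le_add_left
    calc ((range (i + 1)).biUnion F).card ≤ ∑ j ∈ range (i + 1), (F j).card := card_biUnion_le
      _ ≤ ∑ _j ∈ range (i + 1), (4 * D + 1) ^ p.card * m := sum_le_sum fun j _ => hF1 j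
      _ = _ := by rw [sum_const, card_range, smul_eq_mul]
  -- logarithms
  have hl2 := Real.log_two_gt_d9
  have hl2' := Real.log_two_lt_d9
  have hk4 : 4 ≤ k := Nat.le_log_of_pow_le (by norm_num) (by norm_num; exact hf0)
  have hk1 : (k : ℝ) * Real.log 2 ≤ Real.log X := by
    rw [← Real.log_pow]
    apply Real.log_le_log (by positivity)
    calc ((2:ℝ)) ^ k = ((2 ^ k : ℕ) : ℝ) := by push_cast; rfl
      _ ≤ (⌊X⌋₊ : ℝ) := by exact_mod_cast Nat.pow_log_le_self 2 (by omega : ⌊X⌋₊ ≠ 0)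
      _ ≤ X := Nat.floor_le hX0
  have hi1 : (i : ℝ) * Real.log 2 ≤ Real.log k := by
    rw [← Real.log_pow]
    apply Real.log_le_log (by positivity)
    exact_mod_cast Nat.pow_log_le_self 2 (by omega : k ≠ 0)
  have h16 : 4 * Real.log 2 ≤ Real.log X := by
    have : Real.log 16 = 4 * Real.log 2 := by
      rw [show (16:ℝ) = 2 ^ 4 by norm_num, Real.log_pow]
      norm_num
    rw [← this]
    exact Real.log_le_log (by norm_num) hX
  have hLpos : 0 < Real.log X := by linarith
  have hll : 1 ≤ Real.log (Real.log X) := by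
    rw [Real.le_log_iff_exp_le hLpos]
    have := Real.exp_one_lt_d9
    linarith
  have hk2 : Real.log k ≤ Real.log (Real.log X) + 1 / 2 := by
    have h1 : (k : ℝ) ≤ Real.log X * (3 / 2) := by nlinarith
    have hk0 : (0:ℝ) < k := by exact_mod_cast (by omega : 0 < k)
    calc Real.log k ≤ Real.log (Real.log X * (3 / 2)) := Real.log_le_log hk0 h1
      _ = Real.log (Real.log X) + Real.log (3 / 2) := Real.log_mul hLpos.ne' (by norm_num)
      _ ≤ Real.log (Real.log X) + 1 / 2 := by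
          have := Real.log_le_sub_one_of_pos (by norm_num : (0:ℝ) < 3 / 2)
          linarith
  have hi2 : (i : ℝ) + 1 ≤ 4 * Real.log (Real.log X) := by nlinarith
  have hM : (0:ℝ) ≤ ((4 * D + 1) ^ p.card * m : ℕ) := Nat.cast_nonneg _
  calc ({n : ℕ | (n : ℝ) ≤ X ∧ SNum p n ∧ n ∈ B}.ncard : ℝ)
      ≤ ((2 ^ (2 * D) + (i + 1) * ((4 * D + 1) ^ p.card * m) : ℕ) : ℝ) := by exact_mod_cast hcard
    _ = (2:ℝ) ^ (2 * D) + ((i : ℝ) + 1) * ((4 * D + 1) ^ p.card * m : ℕ) := by push_cast; ring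
    _ ≤ 2 ^ (2 * D) * Real.log (Real.log X) + (4 * Real.log (Real.log X)) * ((4 * D + 1) ^ p.card * m : ℕ) := by
        apply add_le_add
        · have : (0:ℝ) < 2 ^ (2 * D) := by positivity
          nlinarith
        · exact mul_le_mul_of_nonneg_right hi2 hM
    _ = _ := by ring

end Pool.Agent.V5helper19.GP
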