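import Pool.Agent.V5helper46.GP.Stm0

set_option autoImplicit false

/-!
Job IN of project GP: splitting a relation.
-/

namespace Pool.Agent.V5helper19.GP

open Pool.Agent.V5helper46.GP Finset

lemma split_rel {β τ : Type} [Fintype β] [Fintype τ] {K : IntermediateField ℚ ℂ}
    (P : MvPolynomial (β ⊕ τ) K) (z z' : τ → ℂ)
    (h0 : ∀ u : β → ℂ, MvPolynomial.aeval (Sum.elim u z) P = 0)
    (h1 : ∃ u : β → ℂ, MvPolynomial.aeval (Sum.elim u z') P ≠ 0) :
    ∃ c : MvPolynomial τ K, c.totalDegree ≤ P.totalDegree ∧ MvPolynomial.aeval z c = 0 ∧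
      MvPolynomial.aeval z' c ≠ 0 := by
  classical
  let rb : (β ⊕ τ →₀ ℕ) → (β →₀ ℕ) := fun d => d.comapDomain Sum.inl Sum.inl_injective.injOn
  let rt : (β ⊕ τ →₀ ℕ) → (τ →₀ ℕ) := fun d => d.comapDomain Sum.inr Sum.inr_injective.injOn
  let c : (β →₀ ℕ) → MvPolynomial τ K := fun μ =>
    ∑ d ∈ P.support.filter (fun d => rb d = μ), MvPolynomial.monomial (rt d) (MvPolynomial.coeff d P)
  let p : (τ → ℂ) → MvPolynomial β ℂ := fun z =>
    ∑ d ∈ P.support, MvPolynomial.monomial (rb d) ((algebraMap K ℂ (MvPolynomial.coeff d P)) * ∏ i : τ, z i ^ (d (Sum.inr i)))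
  have hdeg : ∀ μ, (c μ).totalDegree ≤ P.totalDegree := by
    intro μ
    refine (MvPolynomial.totalDegree_finsetSum _ _).trans ?_
    refine Finset.sup_le fun d hd => ?_
    have hd' := (mem_filter.1 hd).1
    refine le_trans (MvPolynomial.totalDegree_monomial_le _ _) ?_
    refine le_trans ?_ (MvPolynomial.le_totalDegree hd')
    have e1 : (rt d).sum (fun _ e => e) = ∑ i : τ, d (Sum.inr i) := by
      rw [Finsupp.sum_fintype _ _ (fun _ => rfl)]
      rfl
    have e2 : d.sum (fun _ e => e) = ∑ i : β, d (Sum.inl i) + ∑ i : τ, d (Sum.inr i) := by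
      rw [Finsupp.sum_fintype _ _ (fun _ => rfl), Fintype.sum_sum_type]
    rw [e2]
    refine le_trans (le_of_eq ?_) (Nat.le_add_left _ _)
    rw [← e1]
    rfl
  have hc : ∀ (z : τ → ℂ) μ, MvPolynomial.aeval z (c μ) = MvPolynomial.coeff μ (p z) := by
    intro z μ
    simp only [c, p]
    rw [map_sum, MvPolynomial.coeff_sum, sum_filter]
    refine sum_congr rfl fun d _ => ?_
    rw [MvPolynomial.coeff_monomial]
    split_ifs with h
    · rw [MvPolynomial.aeval_monomial, Finsupp.prod_fintype _ _ (fun _ => pow_zero _)]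
      rfl
    · rfl
  have hp : ∀ (z : τ → ℂ) (u : β → ℂ), MvPolynomial.eval u (p z) = MvPolynomial.aeval (Sum.elim u z) P := by
    intro z u
    conv_rhs => rw [← MvPolynomial.support_sum_monomial_coeff P]
    simp only [p]
    rw [map_sum, map_sum]
    refine sum_congr rfl fun d _ => ?_
    rw [MvPolynomial.eval_monomial, MvPolynomial.aeval_monomial, Finsupp.prod_fintype _ _ (fun _ => pow_zero _),
      Finsupp.prod_fintype _ _ (fun _ => pow_zero _), Fintype.prod_sum_type]
    simp only [Sum.elim_inl, Sum.elim_inr, rb, Finsupp.comapDomain_apply]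
    ring
  have hz : p z = 0 := by
    apply MvPolynomial.funext
    intro u
    rw [hp, h0, map_zero]
  obtain ⟨u', hu'⟩ := h1
  have hz' : p z' ≠ 0 := by
    intro h
    apply hu'
    rw [← hp, h, map_zero]
  obtain ⟨μ, hμ⟩ := MvPolynomial.ne_zero_iff.1 hz'
  exact ⟨c μ, hdeg μ, by rw [hc, hz, MvPolynomial.coeff_zero], by rw [hc]; exact hμ⟩

theorem t_IN : S_IN := by
  classical
  intro B k q D δ w v ⟨K, hK1, hK2, P, hP1, hP2, u, hu⟩
  let V : (Fin k × Fin B → ℂ) → (Fin B → ℂ) → Fin (k + 1) × Fin B → ℂ := fun v₁ x a =>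
    Fin.lastCases (motive := fun _ => ℂ) (x a.2) (fun a' => v₁ (a', a.2)) a.1
  have hV : ∀ y : Fin (k + 1) × Fin B → ℂ, V (fun a => y (a.1.castSucc, a.2)) (fun b => y (Fin.last k, b)) = y := by
    intro y
    funext a
    obtain ⟨a, b⟩ := a
    simp only [V]
    induction a using Fin.lastCases with
    | last => rw [Fin.lastCases_last]
    | cast i => rw [Fin.lastCases_castSucc]
  by_cases hcase : ∃ x : Fin B → ℂ, MvPolynomial.aeval (Sum.elim (cs w) (V (fun a => v a.1.castSucc a.2) x)) P ≠ 0
  · right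
    obtain ⟨x, hx⟩ := hcase
    let f : Option (Fin q) ⊕ (Fin (k + 1) × Fin B) → Option (Fin (q + k * B)) ⊕ Fin B :=
      Sum.elim (fun o => Sum.inl (o.map (Fin.castAdd (k * B))))
        (fun a => Fin.lastCases (motive := fun _ => Option (Fin (q + k * B)) ⊕ Fin B) (Sum.inr a.2)
          (fun a' => Sum.inl (some (Fin.natAdd q (finProdFinEquiv (a', a.2))))) a.1)
    have hf : ∀ x : Fin B → ℂ, (Sum.elim (cs (Fin.append w fun i : Fin (k * B) =>
        v (finProdFinEquiv.symm i).1.castSucc (finProdFinEquiv.symm i).2)) x) ∘ f =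
        Sum.elim (cs w) (V (fun a => v a.1.castSucc a.2) x) := by
      intro x
      funext s
      rcases s with o | ⟨a, b⟩
      · rcases o with _ | i
        · rfl
        · simp [f, cs]
      · simp only [f, V, Function.comp_apply, Sum.elim_inr]
        induction a using Fin.lastCases with
        | last => rw [Fin.lastCases_last, Fin.lastCases_last, Sum.elim_inr]
        | cast i =>
          rw [Fin.lastCases_castSucc, Fin.lastCases_castSucc, Sum.elim_inl]
          simp only [cs, Option.elim_some]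
          rw [Fin.append_right, Equiv.symm_apply_apply]
    refine ⟨K, hK1, hK2, MvPolynomial.rename f P, (MvPolynomial.totalDegree_rename_le f P).trans hP1, ?_, x, ?_⟩
    · rw [MvPolynomial.aeval_rename, hf]
      have h2 := hV (fun a : Fin (k + 1) × Fin B => v a.1 a.2)
      simp only at h2
      rw [show V (fun a => v a.1.castSucc a.2) (v (Fin.last k)) = fun a : Fin (k + 1) × Fin B => v a.1 a.2 from h2]
      exact hP2
    · rw [MvPolynomial.aeval_rename, hf]
      exact hx
  · left
    push Not at hcase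
    let f : Option (Fin q) ⊕ (Fin (k + 1) × Fin B) → Fin B ⊕ (Option (Fin q) ⊕ (Fin k × Fin B)) :=
      Sum.elim (fun o => Sum.inr (Sum.inl o))
        (fun a => Fin.lastCases (motive := fun _ => Fin B ⊕ (Option (Fin q) ⊕ (Fin k × Fin B))) (Sum.inl a.2)
          (fun a' => Sum.inr (Sum.inr (a', a.2))) a.1)
    have hf : ∀ (x : Fin B → ℂ) (y : Fin k × Fin B → ℂ), (Sum.elim x (Sum.elim (cs w) y)) ∘ f =
        Sum.elim (cs w) (V y x) := by
      intro x y
      funext s
      rcases s with o | ⟨a, b⟩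
      · rfl
      · simp only [f, V, Function.comp_apply, Sum.elim_inr]
        induction a using Fin.lastCases with
        | last => rw [Fin.lastCases_last, Fin.lastCases_last, Sum.elim_inl]
        | cast i => rw [Fin.lastCases_castSucc, Fin.lastCases_castSucc, Sum.elim_inr, Sum.elim_inr]
    obtain ⟨c, hc1, hc2, hc3⟩ := split_rel (MvPolynomial.rename f P) (Sum.elim (cs w) (fun a : Fin k × Fin B => v a.1.castSucc a.2))
      (Sum.elim (cs w) (fun a : Fin k × Fin B => u (a.1.castSucc, a.2)))
      (fun x => by rw [MvPolynomial.aeval_rename, hf]; exact hcase x)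
      ⟨fun b => u (Fin.last k, b), by rw [MvPolynomial.aeval_rename, hf, hV u]; exact hu⟩
    exact ⟨K, hK1, hK2, c, (hc1.trans (MvPolynomial.totalDegree_rename_le f P)).trans hP1, hc2, _, hc3⟩

end Pool.Agent.V5helper19.GP
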